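import Mathlib

set_option autoImplicit false

/-!
# Chains of closed sets, and local estimates for path integrals
-/

open Set Filter Topology

namespace Q195.JP

/-- If an interval is covered by finitely many closed sets on which `F` oscillates little, then the
increment of `F` is small. -/
theorem chain {ι V : Type*} [DecidableEq ι] [SeminormedAddCommGroup V] (E : ι → Set ℝ)
    (hE : ∀ i, IsClosed (E i)) (F : ℝ → V) (D : ι → ℝ)
    (hD : ∀ i, ∀ t ∈ E i, ∀ t' ∈ E i, ‖F t - F t'‖ ≤ D i) :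
    ∀ (n : ℕ) (I : Finset ι), I.card = n → ∀ u v : ℝ, u ≤ v → (Icc u v ⊆ ⋃ i ∈ I, E i) →
      (∀ i ∈ I, 0 ≤ D i) → ‖F v - F u‖ ≤ ∑ i ∈ I, D i := by
  intro n
  induction n with
  | zero =>
    intro I hI u v huv hcov _
    rw [Finset.card_eq_zero] at hI
    subst hI
    have := hcov (left_mem_Icc.2 huv)
    simp at this
  | succ n ih =>
    intro I hI u v huv hcov hD0
    obtain ⟨i, hi, hui⟩ : ∃ i ∈ I, u ∈ E i := by
      have := hcov (left_mem_Icc.2 huv)
      simpa using this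
    set S := E i ∩ Icc u v with hS
    have hScomp : IsCompact S := isCompact_Icc.inter_left (hE i)
    have hSne : S.Nonempty := ⟨u, hui, left_mem_Icc.2 huv⟩
    set w := sSup S with hw
    have hwS : w ∈ S := hScomp.sSup_mem hSne
    have h1 : ‖F w - F u‖ ≤ D i := hD i w hwS.1 u hui
    rw [← Finset.add_sum_erase _ _ hi]
    rcases eq_or_lt_of_le hwS.2.2 with h2 | h2
    · rw [← h2]
      have h3 : 0 ≤ ∑ j ∈ I.erase i, D j :=
        Finset.sum_nonneg fun j hj => hD0 j (Finset.mem_of_mem_erase hj)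
      linarith
    · have hcov2 : Ioc w v ⊆ ⋃ j ∈ I.erase i, E j := by
        intro t ht
        have h3 := hcov (show t ∈ Icc u v from ⟨hwS.2.1.trans ht.1.le, ht.2⟩)
        rw [mem_iUnion₂] at h3 ⊢
        obtain ⟨j, hj, htj⟩ := h3
        refine ⟨j, Finset.mem_erase.2 ⟨?_, hj⟩, htj⟩
        rintro rfl
        have h4 : t ≤ w := le_csSup hScomp.bddAbove ⟨htj, hwS.2.1.trans ht.1.le, ht.2⟩
        linarith [ht.1]
      have hclosed : IsClosed (⋃ j ∈ I.erase i, E j) := isClosed_biUnion_finset fun j _ => hE j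
      have hcov3 : Icc w v ⊆ ⋃ j ∈ I.erase i, E j := by
        rw [← closure_Ioc h2.ne]
        exact closure_minimal hcov2 hclosed
      have h5 := ih (I.erase i) (by rw [Finset.card_erase_of_mem hi]; omega) w v hwS.2.2 hcov3
        (fun j hj => hD0 j (Finset.mem_of_mem_erase hj))
      calc ‖F v - F u‖ = ‖(F w - F u) + (F v - F w)‖ := by congr 1; abel
        _ ≤ ‖F w - F u‖ + ‖F v - F w‖ := norm_add_le _ _
        _ ≤ _ := add_le_add h1 h5

/-- `I` is the integral of `g` along `γ` restricted to `[a, b]` (limit of the Riemann-Stieltjes sums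
as the mesh of the tagged partitions tends to zero). -/
def PathIntegral (γ : ℝ → ℂ) (a b : ℝ) (g : ℂ → ℂ) (J : ℂ) : Prop :=
  ∀ ε > 0, ∃ δ > 0, ∀ (n : ℕ) (t ξ : ℕ → ℝ), Monotone t → t 0 = a → t n = b →
    (∀ i < n, t i ≤ ξ i ∧ ξ i ≤ t (i + 1)) → (∀ i < n, t (i + 1) - t i < δ) →
    ‖∑ i ∈ Finset.range n, g (γ (ξ i)) * (γ (t (i + 1)) - γ (t i)) - J‖ < ε

/-- Variation over an interval. -/
noncomputable def var (Γ : ℝ → ℂ) (a b : ℝ) : ℝ := (eVariationOn Γ (Icc a b)).toReal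

theorem sum_norm_le_var {Γ : ℝ → ℂ} {a b : ℝ} (hbv : BoundedVariationOn Γ (Icc a b)) {n : ℕ}
    {u : ℕ → ℝ} (hu : Monotone u) (h0 : a ≤ u 0) (hn : u n ≤ b) :
    ∑ i ∈ Finset.range n, ‖Γ (u (i + 1)) - Γ (u i)‖ ≤ var Γ a b := by
  have h1 : ∑ i ∈ Finset.range n, edist (Γ (u (i + 1))) (Γ (u i)) ≤ eVariationOn Γ (Icc a b) :=
    eVariationOn.sum_le_of_monotoneOn_Iic (hu.monotoneOn _)
      (fun i hi => ⟨h0.trans (hu (Nat.zero_le i)), (hu hi).trans hn⟩)
  have h2 := ENNReal.toReal_mono hbv h1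
  rw [ENNReal.toReal_sum (fun i _ => edist_ne_top _ _)] at h2
  refine le_trans (le_of_eq ?_) h2
  refine Finset.sum_congr rfl fun i _ => ?_
  rw [← dist_eq_norm, edist_dist, ENNReal.toReal_ofReal dist_nonneg]

theorem var_nonneg (Γ : ℝ → ℂ) (a b : ℝ) : 0 ≤ var Γ a b := ENNReal.toReal_nonneg

theorem norm_sub_le_var {Γ : ℝ → ℂ} {a b : ℝ} (hbv : BoundedVariationOn Γ (Icc a b)) {x y : ℝ}
    (hx : x ∈ Icc a b) (hy : y ∈ Icc a b) : ‖Γ x - Γ y‖ ≤ var Γ a b := by
  rw [← dist_eq_norm]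
  exact hbv.dist_le hx hy

theorem bv_mono {Γ : ℝ → ℂ} {a b c d : ℝ} (hbv : BoundedVariationOn Γ (Icc a b)) (hac : a ≤ c)
    (hdb : d ≤ b) : BoundedVariationOn Γ (Icc c d) :=
  hbv.mono (Icc_subset_Icc hac hdb)

theorem var_mono {Γ : ℝ → ℂ} {a b c d : ℝ} (hbv : BoundedVariationOn Γ (Icc a b)) (hac : a ≤ c)
    (hdb : d ≤ b) : var Γ c d ≤ var Γ a b :=
  ENNReal.toReal_mono hbv (eVariationOn.mono _ (Icc_subset_Icc hac hdb))

theorem var_add {Γ : ℝ → ℂ} {a b c : ℝ} (hbv : BoundedVariationOn Γ (Icc a c)) (hab : a ≤ b)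
    (hbc : b ≤ c) : var Γ a b + var Γ b c = var Γ a c := by
  have h1 := eVariationOn.Icc_add_Icc Γ (s := univ) hab hbc (mem_univ b)
  simp only [univ_inter] at h1
  unfold var
  rw [← h1, ENNReal.toReal_add]
  · exact bv_mono hbv le_rfl hbc
  · exact bv_mono hbv hab le_rfl

/-- The estimate on a chunk. -/
theorem chunk_est {Γ : ℝ → ℂ} {F G : ℂ → ℂ} {s s' : ℝ} (hs : s < s')
    (hbv : BoundedVariationOn Γ (Icc s s')) (hI : PathIntegral Γ s s' G (F (Γ s') - F (Γ s)))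
    {z : ℂ} {ε : ℝ} (hε : ∀ x ∈ Icc s s', ‖G (Γ x) - z‖ ≤ ε) :
    ‖(F (Γ s') - z * Γ s') - (F (Γ s) - z * Γ s)‖ ≤ ε * var Γ s s' := by
  refine le_of_forall_pos_le_add fun η hη => ?_
  obtain ⟨δ, hδ, h⟩ := hI η hη
  obtain ⟨n, hn⟩ := exists_nat_gt ((s' - s) / δ)
  have hpos : 0 < (s' - s) / δ := div_pos (by linarith) hδ
  have hn0 : (0 : ℝ) < n := hpos.trans hn
  set t : ℕ → ℝ := fun i => s + i * ((s' - s) / n) with ht
  have hstep : 0 < (s' - s) / n := div_pos (by linarith) hn0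
  have hmono : Monotone t := by
    intro i j hij
    have : (i : ℝ) ≤ j := by exact_mod_cast hij
    simp only [ht]
    nlinarith
  have ht0 : t 0 = s := by simp [ht]
  have htn : t n = s' := by
    simp only [ht]
    field_simp
    ring
  have hdiff : ∀ i, t (i + 1) - t i = (s' - s) / n := by
    intro i
    simp only [ht]
    push_cast
    ring
  have h1 := h n t t hmono ht0 htn (fun i _ => ⟨le_rfl, hmono (Nat.le_succ i)⟩) (fun i _ => by
    rw [hdiff, div_lt_iff₀ hn0]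
    rw [div_lt_iff₀ hδ] at hn
    linarith)
  have htele : ∑ i ∈ Finset.range n, (Γ (t (i + 1)) - Γ (t i)) = Γ s' - Γ s := by
    rw [Finset.sum_range_sub (fun i => Γ (t i)), ht0, htn]
  have hmem : ∀ i ∈ Finset.range n, t i ∈ Icc s s' := by
    intro i hi
    rw [Finset.mem_range] at hi
    exact ⟨by rw [← ht0]; exact hmono (Nat.zero_le i), by rw [← htn]; exact hmono hi.le⟩
  have h2 : ‖∑ i ∈ Finset.range n, G (Γ (t i)) * (Γ (t (i + 1)) - Γ (t i)) - z * (Γ s' - Γ s)‖ ≤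
      ε * var Γ s s' := by
    rw [← htele, Finset.mul_sum, ← Finset.sum_sub_distrib]
    refine (norm_sum_le _ _).trans ?_
    have h3 : ∀ i ∈ Finset.range n, ‖G (Γ (t i)) * (Γ (t (i + 1)) - Γ (t i)) - z * (Γ (t (i + 1)) - Γ (t i))‖ ≤
        ε * ‖Γ (t (i + 1)) - Γ (t i)‖ := by
      intro i hi
      rw [← sub_mul, norm_mul]
      exact mul_le_mul_of_nonneg_right (hε _ (hmem i hi)) (norm_nonneg _)
    refine (Finset.sum_le_sum h3).trans ?_
    rw [← Finset.mul_sum]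
    have hε0 : 0 ≤ ε := (norm_nonneg _).trans (hε s (left_mem_Icc.2 hs.le))
    exact mul_le_mul_of_nonneg_left (sum_norm_le_var hbv hmono ht0.ge htn.le) hε0
  have e : (F (Γ s') - z * Γ s') - (F (Γ s) - z * Γ s) =
      (∑ i ∈ Finset.range n, G (Γ (t i)) * (Γ (t (i + 1)) - Γ (t i)) - z * (Γ s' - Γ s)) -
      (∑ i ∈ Finset.range n, G (Γ (t i)) * (Γ (t (i + 1)) - Γ (t i)) - (F (Γ s') - F (Γ s))) := by ring
  rw [e]
  exact (norm_sub_le _ _).trans (add_le_add h2 h1.le)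

end Q195.JP
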