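import Pool.Agent.Q195.JP.Core

set_option autoImplicit false

/-!
# Jordan paths inside the image of a rectifiable path
-/

open Set Filter Topology

namespace Q195.JP

theorem exists_sep {γ : ℝ → ℂ} {a b : ℝ} (hc : ContinuousOn γ (Icc a b)) (hinj : InjOn γ (Icc a b))
    {m : ℝ} (hm : 0 < m) :
    ∃ δ > 0, ∀ x ∈ Icc a b, ∀ y ∈ Icc a b, m ≤ |x - y| → δ ≤ ‖γ x - γ y‖ := by
  set K : Set (ℝ × ℝ) := (Icc a b ×ˢ Icc a b) ∩ {p | m ≤ |p.1 - p.2|} with hK
  have hKc : IsCompact K := (isCompact_Icc.prod isCompact_Icc).inter_right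
    (isClosed_le continuous_const (continuous_abs.comp (continuous_fst.sub continuous_snd)))
  rcases K.eq_empty_or_nonempty with h | h
  · refine ⟨1, one_pos, fun x hx y hy hxy => ?_⟩
    exact absurd (show (x, y) ∈ K from ⟨⟨hx, hy⟩, hxy⟩) (by rw [h]; exact notMem_empty _)
  · have hcont : ContinuousOn (fun p : ℝ × ℝ => ‖γ p.1 - γ p.2‖) K := by
      refine (ContinuousOn.sub ?_ ?_).norm
      · exact hc.comp continuous_fst.continuousOn fun p hp => hp.1.1
      · exact hc.comp continuous_snd.continuousOn fun p hp => hp.1.2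
    obtain ⟨p, hp, hmin⟩ := hKc.exists_isMinOn h hcont
    refine ⟨‖γ p.1 - γ p.2‖, ?_, fun x hx y hy hxy => hmin (show (x, y) ∈ K from ⟨⟨hx, hy⟩, hxy⟩)⟩
    rw [gt_iff_lt, norm_pos_iff, sub_ne_zero]
    intro h1
    have h2 := hinj hp.1.1 hp.1.2 h1
    have h3 : m ≤ |p.1 - p.2| := hp.2
    rw [h2, sub_self, abs_zero] at h3
    linarith

theorem exists_chunks {Γ : ℝ → ℂ} {A B : ℝ} (hc : ContinuousOn Γ (Icc A B)) {η : ℝ} (hη : 0 < η) :
    ∃ N : ℕ, 0 < N ∧ ∀ x ∈ Icc A B, ∀ y ∈ Icc A B, |x - y| ≤ (B - A) / N → ‖Γ x - Γ y‖ < η := by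
  have hu := isCompact_Icc.uniformContinuousOn_of_continuous hc
  rw [Metric.uniformContinuousOn_iff] at hu
  obtain ⟨δ, hδ, h⟩ := hu η hη
  obtain ⟨N, hN⟩ := exists_nat_gt (max 0 ((B - A) / δ))
  have hN0 : (0 : ℝ) < N := (le_max_left _ _).trans_lt hN
  have hN1 : (B - A) / δ < N := (le_max_right _ _).trans_lt hN
  refine ⟨N, by exact_mod_cast hN0, fun x hx y hy hxy => ?_⟩
  rw [← dist_eq_norm]
  refine h x hx y hy ?_
  rw [Real.dist_eq]
  refine hxy.trans_lt ?_
  rw [div_lt_iff₀ hδ] at hN1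
  rw [div_lt_iff₀ hN0]
  linarith

/-- Double counting. -/
theorem count {N : ℕ} {w : ℕ → ℝ} (hw : ∀ k, 0 ≤ w k) (J : Finset ℕ) (I : ℕ → Finset ℕ)
    (hI : ∀ j ∈ J, I j ⊆ Finset.range N)
    (h2 : ∀ k < N, (J.filter (fun j => k ∈ I j)).card ≤ 2) :
    ∑ j ∈ J, ∑ k ∈ I j, w k ≤ 2 * ∑ k ∈ Finset.range N, w k := by
  have h1 : ∀ j ∈ J, ∑ k ∈ I j, w k = ∑ k ∈ Finset.range N, if k ∈ I j then w k else 0 := by
    intro j hj
    rw [← Finset.sum_filter]
    congr 1
    ext k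
    rw [Finset.mem_filter]
    exact ⟨fun h => ⟨hI j hj h, h⟩, fun h => h.2⟩
  rw [Finset.sum_congr rfl h1, Finset.sum_comm, Finset.mul_sum]
  refine Finset.sum_le_sum fun k hk => ?_
  rw [← Finset.sum_filter, Finset.sum_const, nsmul_eq_mul]
  have h3 : ((J.filter (fun j => k ∈ I j)).card : ℝ) ≤ 2 := by
    exact_mod_cast h2 k (Finset.mem_range.1 hk)
  exact mul_le_mul_of_nonneg_right h3 (hw k)

theorem card_le_two {S : Finset ℕ} (h : ∀ i ∈ S, ∀ j ∈ S, ∀ k ∈ S, i < j → j < k → False) :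
    S.card ≤ 2 := by
  by_contra hcon
  push Not at hcon
  have h3 : 3 ≤ S.card := hcon
  set e := S.orderEmbOfFin rfl with he
  have hmem : ∀ i, e i ∈ S := fun i => Finset.orderEmbOfFin_mem S rfl i
  refine h (e ⟨0, by omega⟩) (hmem _) (e ⟨1, by omega⟩) (hmem _) (e ⟨2, by omega⟩) (hmem _) ?_ ?_
  · exact e.strictMono (by simp)
  · exact e.strictMono (by simp)

/-- The chunks have small total variation. -/
theorem sum_var {Γ : ℝ → ℂ} {A B : ℝ} (hbv : BoundedVariationOn Γ (Icc A B)) {p : ℕ → ℝ}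
    (hp : Monotone p) (h0 : p 0 = A) : ∀ N : ℕ, p N ≤ B →
    ∑ k ∈ Finset.range N, var Γ (p k) (p (k + 1)) = var Γ A (p N) := by
  intro N
  induction N with
  | zero =>
    intro _
    rw [Finset.range_zero, Finset.sum_empty, h0]
    unfold var
    rw [Icc_self, eVariationOn.subsingleton _ subsingleton_singleton]
    rfl
  | succ N ih =>
    intro hN
    have h1 : p N ≤ p (N + 1) := hp (Nat.le_succ N)
    rw [Finset.sum_range_succ, ih (h1.trans hN)]
    exact var_add (bv_mono hbv le_rfl hN) (by rw [← h0]; exact hp (Nat.zero_le N)) h1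

variable {V : Type*} [SeminormedAddCommGroup V]

/-- The main estimate. -/
theorem main_est {Γ γ : ℝ → ℂ} {A B a b : ℝ} (hAB : A < B) (hΓc : ContinuousOn Γ (Icc A B))
    (hΓ : BoundedVariationOn Γ (Icc A B)) (hγc : ContinuousOn γ (Icc a b))
    (hinj : InjOn γ (Icc a b)) (hsub : γ '' Icc a b ⊆ Γ '' Icc A B) {n : ℕ} {t : ℕ → ℝ}
    (ht : Monotone t) (h0 : a ≤ t 0) (hn : t n ≤ b) {η : ℝ} (hη : 0 < η) {K : ℝ} (hK : 0 ≤ K)
    (F : ℕ → ℝ → V)
    (hF : ∀ j < n, ∀ p q : ℝ, A ≤ p → p ≤ q → q ≤ B →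
      (∀ x ∈ Icc p q, ∀ y ∈ Icc p q, ‖Γ x - Γ y‖ < η) → ∀ x ∈ Icc (t j) (t (j + 1)),
      ∀ x' ∈ Icc (t j) (t (j + 1)), ∀ s ∈ Icc p q, ∀ s' ∈ Icc p q, γ x = Γ s → γ x' = Γ s' →
      ‖F j x - F j x'‖ ≤ K * var Γ p q) :
    ∑ j ∈ Finset.range n, ‖F j (t (j + 1)) - F j (t j)‖ ≤ 2 * K * var Γ A B := by
  classical
  set J := (Finset.range n).filter (fun j => t j < t (j + 1)) with hJ
  have hsum : ∑ j ∈ Finset.range n, ‖F j (t (j + 1)) - F j (t j)‖ =
      ∑ j ∈ J, ‖F j (t (j + 1)) - F j (t j)‖ := by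
    symm
    apply Finset.sum_filter_of_ne
    intro j _ hne
    rcases eq_or_lt_of_le (ht (Nat.le_succ j)) with h | h
    · exfalso
      apply hne
      rw [← h, sub_self, norm_zero]
    · exact h
  rw [hsum]
  -- the minimal length of the arcs
  obtain ⟨m, hm, hmJ⟩ : ∃ m > 0, ∀ j ∈ J, m ≤ t (j + 1) - t j := by
    rcases J.eq_empty_or_nonempty with h | h
    · exact ⟨1, one_pos, fun j hj => by rw [h] at hj; exact absurd hj (Finset.notMem_empty _)⟩
    · obtain ⟨j0, hj0, hmin⟩ := J.exists_min_image (fun j => t (j + 1) - t j) h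
      refine ⟨t (j0 + 1) - t j0, ?_, fun j hj => hmin j hj⟩
      rw [hJ, Finset.mem_filter] at hj0
      exact sub_pos.2 hj0.2
  obtain ⟨δ0, hδ0, hsep⟩ := exists_sep hγc hinj hm
  obtain ⟨N, hN0, hN⟩ := exists_chunks hΓc (lt_min hη hδ0)
  have hN0' : (0 : ℝ) < N := by exact_mod_cast hN0
  set p : ℕ → ℝ := fun k => A + k * ((B - A) / N) with hp
  have hstep : 0 < (B - A) / N := div_pos (by linarith) hN0'
  have hpmono : Monotone p := by
    intro i j hij
    have : (i : ℝ) ≤ j := by exact_mod_cast hij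
    simp only [hp]
    nlinarith
  have hp0 : p 0 = A := by simp [hp]
  have hpN : p N = B := by
    simp only [hp]
    field_simp
    ring
  have hpdiff : ∀ k, p (k + 1) - p k = (B - A) / N := by
    intro k
    simp only [hp]
    push_cast
    ring
  have hpA : ∀ k, A ≤ p k := fun k => by rw [← hp0]; exact hpmono (Nat.zero_le k)
  have hpB : ∀ k ≤ N, p k ≤ B := fun k hk => by rw [← hpN]; exact hpmono hk
  have hchunk : ∀ k < N, ∀ x ∈ Icc (p k) (p (k + 1)), ∀ y ∈ Icc (p k) (p (k + 1)),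
      ‖Γ x - Γ y‖ < min η δ0 := by
    intro k hk x hx y hy
    refine hN x ⟨(hpA k).trans hx.1, hx.2.trans (hpB _ hk)⟩ y ⟨(hpA k).trans hy.1, hy.2.trans (hpB _ hk)⟩ ?_
    rw [← hpdiff k, abs_le]
    exact ⟨by linarith [hx.1, hy.2], by linarith [hx.2, hy.1]⟩
  have hta : ∀ j, a ≤ t j := fun j => h0.trans (ht (Nat.zero_le j))
  have htb : ∀ j ≤ n, t j ≤ b := fun j hj => (ht hj).trans hn
  -- the closed sets
  set E : ℕ → ℕ → Set ℝ := fun j k => Icc (t j) (t (j + 1)) ∩ γ ⁻¹' (Γ '' Icc (p k) (p (k + 1))) with hE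
  set I : ℕ → Finset ℕ := fun j => (Finset.range N).filter (fun k => (E j k).Nonempty) with hI
  have hEclosed : ∀ j < n, ∀ k < N, IsClosed (E j k) := by
    intro j hj k hk
    refine ContinuousOn.preimage_isClosed_of_isClosed
      (hγc.mono (Icc_subset_Icc (hta j) (htb _ hj))) isClosed_Icc ?_
    exact (isCompact_Icc.image_of_continuousOn
      (hΓc.mono (Icc_subset_Icc (hpA k) (hpB _ hk)))).isClosed
  have hcover : ∀ j < n, Icc (t j) (t (j + 1)) ⊆ ⋃ k ∈ I j, E j k := by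
    intro j hj x hx
    obtain ⟨s, hs, hsx⟩ := hsub (mem_image_of_mem γ (show x ∈ Icc a b from
      ⟨(hta j).trans hx.1, hx.2.trans (htb _ hj)⟩))
    -- the chunk containing `s`
    obtain ⟨k, hk, hks⟩ : ∃ k < N, s ∈ Icc (p k) (p (k + 1)) := by
      by_contra hcon
      push Not at hcon
      have hall : ∀ k ≤ N, p k ≤ s := by
        intro k
        induction k with
        | zero => intro _; rw [hp0]; exact hs.1
        | succ k ih =>
          intro hk
          have h1 := ih (by omega)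
          by_contra h2
          exact hcon k (by omega) ⟨h1, (not_le.1 h2).le⟩
      have h1 := hall N le_rfl
      rw [hpN] at h1
      have h2 : s = B := le_antisymm hs.2 h1
      exact hcon (N - 1) (by omega) ⟨hall _ (by omega), by
        rw [Nat.sub_add_cancel hN0, hpN]; exact hs.2⟩
    have hmem : x ∈ E j k := ⟨hx, ⟨s, hks, hsx⟩⟩
    rw [mem_iUnion₂]
    exact ⟨k, Finset.mem_filter.2 ⟨Finset.mem_range.2 hk, ⟨x, hmem⟩⟩, hmem⟩
  -- one arc
  have harc : ∀ j ∈ J, ‖F j (t (j + 1)) - F j (t j)‖ ≤ ∑ k ∈ I j, K * var Γ (p k) (p (k + 1)) := by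
    intro j hj
    rw [hJ, Finset.mem_filter, Finset.mem_range] at hj
    refine chain (fun k => if k < N then E j k else ∅) (fun k => ?_) (F j)
      (fun k => K * var Γ (p k) (p (k + 1))) (fun k x hx x' hx' => ?_) _ (I j) rfl _ _ hj.2.le ?_
      (fun k _ => mul_nonneg hK (var_nonneg _ _ _))
    · split_ifs with hk
      · exact hEclosed j hj.1 k hk
      · exact isClosed_empty
    · by_cases hk : k < N
      · rw [if_pos hk] at hx hx'
        obtain ⟨hx1, s, hs, hsx⟩ := hx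
        obtain ⟨hx1', s', hs', hsx'⟩ := hx'
        exact hF j hj.1 (p k) (p (k + 1)) (hpA k) (hpmono (Nat.le_succ k)) (hpB _ hk)
          (fun y hy z hz => (hchunk k hk y hy z hz).trans_le (min_le_left _ _))
          x hx1 x' hx1' s hs s' hs' hsx.symm hsx'.symm
      · rw [if_neg hk] at hx
        exact absurd hx (notMem_empty _)
    · intro x hx
      have h1 := hcover j hj.1 hx
      rw [mem_iUnion₂] at h1 ⊢
      obtain ⟨k, hk, hxk⟩ := h1
      refine ⟨k, hk, ?_⟩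
      have : k < N := Finset.mem_range.1 (Finset.mem_filter.1 hk).1
      rw [if_pos this]
      exact hxk
  refine (Finset.sum_le_sum harc).trans ?_
  have hcount := count (N := N) (w := fun k => K * var Γ (p k) (p (k + 1)))
    (fun k => mul_nonneg hK (var_nonneg _ _ _)) J I (fun j _ => Finset.filter_subset _ _) (fun k hk => by
      refine card_le_two fun i hi j hj l hl hij hjl => ?_
      rw [Finset.mem_filter] at hi hj hl
      obtain ⟨x, hx⟩ := (Finset.mem_filter.1 hi.2).2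
      obtain ⟨y, hy⟩ := (Finset.mem_filter.1 hl.2).2
      have hin : i < n := Finset.mem_range.1 (Finset.mem_filter.1 hi.1).1
      have hln : l < n := Finset.mem_range.1 (Finset.mem_filter.1 hl.1).1
      obtain ⟨hx1, s, hs, hsx⟩ := hx
      obtain ⟨hy1, s', hs', hsy⟩ := hy
      have h1 := hmJ j hj.1
      have h2 : t (i + 1) ≤ t j := ht hij
      have h3 : t (j + 1) ≤ t l := ht hjl
      have h4 : m ≤ |x - y| := by
        rw [abs_sub_comm]
        refine le_trans ?_ (le_abs_self _)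
        linarith [hx1.2, hy1.1]
      have h5 := hsep x ⟨(hta i).trans hx1.1, hx1.2.trans (htb _ hin)⟩ y
        ⟨(hta l).trans hy1.1, hy1.2.trans (htb _ hln)⟩ h4
      have h6 := (hchunk k hk s hs s' hs').trans_le (min_le_right _ _)
      rw [hsx, hsy] at h6
      linarith)
  refine hcount.trans ?_
  rw [← Finset.mul_sum, sum_var hΓ hpmono hp0 N hpN.le, hpN]
  linarith

/-- A Jordan path in the image of a rectifiable path is rectifiable. -/
theorem rectifiable {Γ γ : ℝ → ℂ} {A B a b : ℝ} (hAB : A < B) (hΓc : ContinuousOn Γ (Icc A B))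
    (hΓ : BoundedVariationOn Γ (Icc A B)) (hγc : ContinuousOn γ (Icc a b))
    (hinj : InjOn γ (Icc a b)) (hsub : γ '' Icc a b ⊆ Γ '' Icc A B) :
    BoundedVariationOn γ (Icc a b) := by
  have h : eVariationOn γ (Icc a b) ≤ ENNReal.ofReal (2 * 1 * var Γ A B) := by
    refine iSup_le ?_
    rintro ⟨n, u, hu, hus⟩
    have h1 := main_est hAB hΓc hΓ hγc hinj hsub (n := n) hu (hus 0).1 (hus n).2 one_pos zero_le_one
      (fun _ => γ) (fun j hj p q hp hpq hq _ x hx x' hx' s hs s' hs' e e' => by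
        rw [one_mul, e, e']
        exact norm_sub_le_var (bv_mono hΓ hp hq) hs hs')
    have h2 : ∑ i ∈ Finset.range n, edist (γ (u (i + 1))) (γ (u i)) =
        ENNReal.ofReal (∑ j ∈ Finset.range n, ‖γ (u (j + 1)) - γ (u j)‖) := by
      rw [ENNReal.ofReal_sum_of_nonneg (fun i _ => norm_nonneg _)]
      refine Finset.sum_congr rfl fun i _ => ?_
      rw [edist_dist, dist_eq_norm]
    show ∑ i ∈ Finset.range n, edist (γ (u (i + 1))) (γ (u i)) ≤ _
    rw [h2]
    exact ENNReal.ofReal_le_ofReal h1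
  exact ne_top_of_le_ne_top ENNReal.ofReal_ne_top h

/-- The integral along the Jordan path. -/
theorem integral {Γ γ : ℝ → ℂ} {A B a b : ℝ} (hAB : A < B) (hΓc : ContinuousOn Γ (Icc A B))
    (hΓ : BoundedVariationOn Γ (Icc A B)) (hγc : ContinuousOn γ (Icc a b))
    (hinj : InjOn γ (Icc a b)) (hsub : γ '' Icc a b ⊆ Γ '' Icc A B) {F G : ℂ → ℂ}
    (hG : ContinuousOn G (Γ '' Icc A B))
    (hd : ∀ c d, A ≤ c → c < d → d ≤ B → PathIntegral Γ c d G (F (Γ d) - F (Γ c))) {c d : ℝ}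
    (hac : a ≤ c) (hdb : d ≤ b) : PathIntegral γ c d G (F (γ d) - F (γ c)) := by
  intro ε hε
  set W := var Γ A B with hW
  have hW0 : 0 ≤ W := var_nonneg _ _ _
  set ε1 := ε / (2 * (W + 1)) / 2 with hε1
  have hε1p : 0 < ε1 := by positivity
  have hXc : IsCompact (Γ '' Icc A B) := isCompact_Icc.image_of_continuousOn hΓc
  have hGu := hXc.uniformContinuousOn_of_continuous hG
  rw [Metric.uniformContinuousOn_iff] at hGu
  obtain ⟨η, hη, hGη⟩ := hGu ε1 hε1p
  have hγu := isCompact_Icc.uniformContinuousOn_of_continuous hγc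
  rw [Metric.uniformContinuousOn_iff] at hγu
  obtain ⟨δ, hδ, hγδ⟩ := hγu (η / 2) (half_pos hη)
  refine ⟨δ, hδ, fun n t ξ ht ht0 htn hξ hmesh => ?_⟩
  have hta : ∀ j, a ≤ t j := fun j => hac.trans (by rw [← ht0]; exact ht (Nat.zero_le j))
  have htb : ∀ j ≤ n, t j ≤ b := fun j hj => (ht hj).trans (by rw [htn]; exact hdb)
  have key := main_est hAB hΓc hΓ hγc hinj hsub (n := n) ht (by rw [ht0]; exact hac)
    (by rw [htn]; exact hdb) (half_pos hη) hε1p.le (fun j x => F (γ x) - G (γ (ξ j)) * γ x)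
    (fun j hj p q hp hpq hq hdiam x hx x' hx' s hs s' hs' e e' => by
      have hξm : ξ j ∈ Icc a b := ⟨(hta j).trans (hξ j hj).1, (hξ j hj).2.trans (htb _ hj)⟩
      have hxm : x ∈ Icc a b := ⟨(hta j).trans hx.1, hx.2.trans (htb _ hj)⟩
      have hclose : ∀ y ∈ Icc p q, ‖G (Γ y) - G (γ (ξ j))‖ ≤ ε1 := by
        intro y hy
        have h1 : ‖Γ y - Γ s‖ < η / 2 := hdiam y hy s hs
        have h2 : dist (γ x) (γ (ξ j)) < η / 2 := by
          refine hγδ x hxm (ξ j) hξm ?_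
          rw [Real.dist_eq, abs_lt]
          have := hmesh j hj
          exact ⟨by linarith [hx.1, (hξ j hj).2], by linarith [hx.2, (hξ j hj).1]⟩
        have h3 : dist (Γ y) (γ (ξ j)) < η := by
          refine (dist_triangle (Γ y) (Γ s) (γ (ξ j))).trans_lt ?_
          rw [dist_eq_norm (Γ y), ← e]
          rw [← e] at h1
          linarith
        have h4 := hGη (Γ y) ⟨y, ⟨hp.trans hy.1, hy.2.trans hq⟩, rfl⟩ (γ (ξ j))
          (hsub ⟨ξ j, hξm, rfl⟩) h3
        rw [dist_eq_norm] at h4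
        exact h4.le
      -- both orders
      have hone : ∀ s s' : ℝ, s ∈ Icc p q → s' ∈ Icc p q → s < s' →
          ‖(F (Γ s') - G (γ (ξ j)) * Γ s') - (F (Γ s) - G (γ (ξ j)) * Γ s)‖ ≤ ε1 * var Γ p q := by
        intro s s' hs hs' hlt
        have h1 := chunk_est hlt (bv_mono hΓ (hp.trans hs.1) (hs'.2.trans hq))
          (hd s s' (hp.trans hs.1) hlt (hs'.2.trans hq)) (z := G (γ (ξ j))) (ε := ε1)
          (fun y hy => hclose y ⟨hs.1.trans hy.1, hy.2.trans hs'.2⟩)
        refine h1.trans (mul_le_mul_of_nonneg_left ?_ hε1p.le)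
        exact var_mono (bv_mono hΓ hp hq) hs.1 hs'.2
      show ‖(F (γ x) - G (γ (ξ j)) * γ x) - (F (γ x') - G (γ (ξ j)) * γ x')‖ ≤ _
      rw [e, e']
      rcases lt_trichotomy s s' with h | h | h
      · rw [norm_sub_rev]
        exact hone s s' hs hs' h
      · rw [h, sub_self, norm_zero]
        exact mul_nonneg hε1p.le (var_nonneg _ _ _)
      · exact hone s' s hs' hs h)
  have htele : ∑ j ∈ Finset.range n, (F (γ (t (j + 1))) - F (γ (t j))) = F (γ d) - F (γ c) := by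
    rw [Finset.sum_range_sub (fun j => F (γ (t j))), ht0, htn]
  rw [← htele, ← Finset.sum_sub_distrib]
  refine (norm_sum_le _ _).trans_lt ?_
  have h5 : ∀ j ∈ Finset.range n, ‖G (γ (ξ j)) * (γ (t (j + 1)) - γ (t j)) -
      (F (γ (t (j + 1))) - F (γ (t j)))‖ =
      ‖(F (γ (t (j + 1))) - G (γ (ξ j)) * γ (t (j + 1))) - (F (γ (t j)) - G (γ (ξ j)) * γ (t j))‖ := by
    intro j _
    rw [← norm_neg]
    congr 1
    ring
  rw [Finset.sum_congr rfl h5]
  refine key.trans_lt ?_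
  have h6 : 2 * ε1 * W = ε * (W / (2 * (W + 1))) := by
    rw [hε1]
    field_simp
  rw [h6]
  have h7 : W / (2 * (W + 1)) < 1 := by
    rw [div_lt_one (by positivity)]
    linarith
  calc ε * (W / (2 * (W + 1))) < ε * 1 := mul_lt_mul_of_pos_left h7 hε
    _ = ε := mul_one _

end Q195.JP
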